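import Pool.Agent.J4H58.OC.Stm3
import Pool.Agent.R656.OP2.Core

/-!
# From Poincaré to the `L¹` inequality at all levels, log-concave densities (project OC, piece BUS)
(adaptation of `Pool.Agent.R310.OP2.Body.bodl`)
-/

set_option autoImplicit false

namespace Pool.Agent.J4H8.OC.Bus

open MeasureTheory Set Filter Topology
open Pool.Agent.J4H58.OC (LDn S_APX S_BUS)
open Pool.Agent.W695.KH (Eu EU Sm Pot)
open Pool.Agent.W880.KH (EU_le EU_sub_const EU_sub_sq integrable_exp)

variable {κ : Type} [Fintype κ]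

/-- The difference of the means of a bounded continuous function. -/
theorem diff {U ρ : Eu κ → ℝ} (h1 : EU U (fun _ => 1) = 1) (hρ : Integrable ρ) {ε : ℝ}
    (hε : ∫ x, |Real.exp (-U x) - ρ x| ≤ ε) {v : Eu κ → ℝ} (hv : Continuous v) {B : ℝ}
    (hB0 : 0 ≤ B) (hB : ∀ x, |v x| ≤ B) :
    |EU U v - ∫ x, v x * ρ x| ≤ B * ε := by
  have hE : Integrable fun x => Real.exp (-U x) := integrable_exp U h1
  have i1 : Integrable fun x => v x * Real.exp (-U x) :=
    hE.bdd_mul hv.aestronglyMeasurable (Eventually.of_forall fun x => by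
      rw [Real.norm_eq_abs]; exact hB x)
  have i2 : Integrable fun x => v x * ρ x :=
    hρ.bdd_mul hv.aestronglyMeasurable (Eventually.of_forall fun x => by
      rw [Real.norm_eq_abs]; exact hB x)
  unfold EU
  rw [← integral_sub i1 i2]
  have h3 := norm_integral_le_of_norm_le (((hE.sub hρ).abs).const_mul B)
      (f := fun x => v x * Real.exp (-U x) - v x * ρ x) (Eventually.of_forall fun x => by
        rw [← mul_sub, norm_mul, Real.norm_eq_abs, Real.norm_eq_abs]
        exact mul_le_mul_of_nonneg_right (hB x) (abs_nonneg _))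
  rw [Real.norm_eq_abs] at h3
  refine h3.trans ?_
  rw [integral_const_mul]
  exact mul_le_mul_of_nonneg_left hε hB0

/-- The difference of the variances. -/
theorem diff_var {U ρ : Eu κ → ℝ} (h1 : EU U (fun _ => 1) = 1) (hρ : Integrable ρ)
    (hρ0 : ∀ x, 0 ≤ ρ x) (hρ1 : ∫ x, ρ x = 1) {ε : ℝ}
    (hε : ∫ x, |Real.exp (-U x) - ρ x| ≤ ε) {v : Eu κ → ℝ} (hv : Continuous v)
    (hB : ∀ x, |v x| ≤ 1) :
    |(EU U (fun x => v x ^ 2) - EU U v ^ 2) -
      ((∫ x, v x ^ 2 * ρ x) - (∫ x, v x * ρ x) ^ 2)| ≤ 3 * ε := by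
  have k1 := diff h1 hρ hε hv zero_le_one hB
  have k3 := diff (v := fun x => v x ^ 2) h1 hρ hε (hv.pow 2) zero_le_one (fun x => by
    rw [abs_pow]
    exact pow_le_one₀ (abs_nonneg _) (hB x))
  have k5 := EU_le U h1 v hv 1 hB
  have k6 : |∫ x, v x * ρ x| ≤ 1 := by
    have h3 := norm_integral_le_of_norm_le (hρ.const_mul 1)
      (f := fun x => v x * ρ x) (Eventually.of_forall fun x => by
        rw [norm_mul, Real.norm_eq_abs, Real.norm_eq_abs, abs_of_nonneg (hρ0 x)]
        exact mul_le_mul_of_nonneg_right (hB x) (hρ0 x))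
    rwa [Real.norm_eq_abs, integral_const_mul, hρ1, one_mul] at h3
  have hε0 : 0 ≤ ε := le_trans (integral_nonneg fun x => abs_nonneg _) hε
  have e : (EU U (fun x => v x ^ 2) - EU U v ^ 2) -
      ((∫ x, v x ^ 2 * ρ x) - (∫ x, v x * ρ x) ^ 2) =
      (EU U (fun x => v x ^ 2) - ∫ x, v x ^ 2 * ρ x) -
        (EU U v - ∫ x, v x * ρ x) * (EU U v + ∫ x, v x * ρ x) := by
    ring
  have h2 : |(EU U v - ∫ x, v x * ρ x) * (EU U v + ∫ x, v x * ρ x)| ≤ 1 * ε * 2 := by
    rw [abs_mul]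
    have h3 : |EU U v + ∫ x, v x * ρ x| ≤ 2 := by
      have := abs_add_le (EU U v) (∫ x, v x * ρ x)
      linarith
    exact mul_le_mul k1 h3 (abs_nonneg _) (by positivity)
  rw [e]
  have h4 := abs_sub (EU U (fun x => v x ^ 2) - ∫ x, v x ^ 2 * ρ x)
    ((EU U v - ∫ x, v x * ρ x) * (EU U v + ∫ x, v x * ρ x))
  refine h4.trans ?_
  linarith

theorem bus (h : S_APX) : S_BUS := by
  intro n ρ hn hρ K hK hPoi f L M hf hfb
  have hcont : Continuous f := hf.diff.continuous
  have hL : 0 ≤ L := (norm_nonneg _).trans (hf.grad 0)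
  have hgc : Continuous fun x => ‖fderiv ℝ f x‖ :=
    (hf.diff.continuous_fderiv one_ne_zero).norm
  set V := (∫ x, f x ^ 2 * ρ x) - (∫ x, f x * ρ x) ^ 2 with hVdef
  set G := ∫ x, ‖fderiv ℝ f x‖ * ρ x with hGdef
  have hG0 : 0 ≤ G := integral_nonneg fun x => mul_nonneg (norm_nonneg _) (hρ.nonneg x)
  by_contra hcon
  push Not at hcon
  have hsq : 0 ≤ Real.sqrt K := Real.sqrt_nonneg _
  have hsq2 : Real.sqrt K ^ 2 = K := Real.sq_sqrt hK.le
  have hV : 0 < V := lt_of_le_of_lt (by positivity) hcon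
  have hV2 : 16 * K * G ^ 2 < V ^ 2 := by
    have h1 : (4 * Real.sqrt K * G) ^ 2 < V ^ 2 := by
      apply pow_lt_pow_left₀ hcon (by positivity) two_ne_zero
    have h2 : (4 * Real.sqrt K * G) ^ 2 = 16 * K * G ^ 2 := by
      rw [mul_pow, mul_pow, hsq2]
      ring
    rwa [h2] at h1
  obtain ⟨c, hc1, hc2⟩ : ∃ c, 4 * G ^ 2 / V < c ∧ c < V / (4 * K) := by
    apply exists_between
    rw [div_lt_div_iff₀ hV (by positivity)]
    nlinarith
  have hc : 0 < c := lt_of_le_of_lt (by positivity) hc1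
  obtain ⟨δ, hδ1, hδ2⟩ : ∃ δ, K * c < δ ∧ δ < V / 4 := by
    apply exists_between
    rw [lt_div_iff₀ (by positivity)] at hc2
    linarith
  have hδ : 0 < δ := lt_trans (by positivity) hδ1
  set L0 : ℝ := max (max L M) 1 with hL0
  have hL01 : 1 ≤ L0 := le_max_right _ _
  have hgap : 0 < δ / K - c := by
    have : c < δ / K := by
      rw [lt_div_iff₀ hK]
      linarith
    linarith
  have hden : 0 < 3 / K + L0 ^ 2 := by positivity
  set τ0 : ℝ := (δ / K - c) / (3 / K + L0 ^ 2) with hτ0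
  have hτ0p : 0 < τ0 := div_pos hgap hden
  have key : ∀ ε : ℝ, 0 < ε → ε < τ0 → ε < (V - 4 * δ) / 3 →
      V - 3 * ε ≤ 4 / c * (G + L * ε) ^ 2 := by
    intro ε hε hε1 hε2
    obtain ⟨U, b, A, hb, hU1, hUε⟩ := h n ρ hn hρ ε hε
    have hWP : ∀ v : Eu (Fin n) → ℝ, ContDiff ℝ 1 v → (∀ x, |v x| ≤ 1) →
        (∀ x, ‖fderiv ℝ v x‖ ≤ L0) →
        δ ≤ EU U (fun x => v x ^ 2) - EU U v ^ 2 →
        c ≤ EU U fun x => ‖fderiv ℝ v x‖ ^ 2 := by
      intro v hv1 hv2 hv3 hv5
      have h1 := hPoi v hv1 hv2 ⟨L0, hv3⟩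
      have k1 := diff_var hU1 hρ.int hρ.nonneg hρ.one hUε hv1.continuous hv2
      have k2 := diff (v := fun x => ‖fderiv ℝ v x‖ ^ 2) hU1 hρ.int hUε
        ((hv1.continuous_fderiv one_ne_zero).norm.pow 2)
        (B := L0 ^ 2) (by positivity) (fun x => by
          rw [abs_of_nonneg (by positivity)]
          exact pow_le_pow_left₀ (norm_nonneg _) (hv3 x) 2)
      have k3 := (abs_le.1 k1).2
      have k4 := (abs_le.1 k2).1
      have h6 : (δ - 3 * ε) / K ≤ ∫ x, ‖fderiv ℝ v x‖ ^ 2 * ρ x := by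
        rw [div_le_iff₀ hK]
        linarith
      have h8 : ε * (3 / K + L0 ^ 2) ≤ δ / K - c := by
        have := (lt_div_iff₀ hden).1 hε1
        linarith
      have h9 : (δ - 3 * ε) / K = δ / K - ε * (3 / K) := by ring
      linarith
    obtain ⟨m, hm⟩ : ∃ m, m = EU U f := ⟨_, rfl⟩
    have hmb : |m| ≤ 1 / 2 := hm ▸ EU_le U hU1 f hcont (1 / 2) hfb
    have hfd : ∀ x, fderiv ℝ (fun y => f y - m) x = fderiv ℝ f x := by
      intro x
      rw [fderiv_sub_const]
    have hS : Sm (fun x => f x - m) L M := by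
      refine ⟨?_, hf.diff.sub contDiff_const, ?_, ?_⟩
      · intro x
        have h1 := hfb x
        have h2 : |f x - m| ≤ |f x| + |m| := abs_sub _ _
        linarith
      · intro x
        rw [hfd]
        exact hf.grad x
      · intro x y
        rw [hfd, hfd]
        exact hf.lip x y
    have k1 := diff_var hU1 hρ.int hρ.nonneg hρ.one hUε hcont hf.bdd
    rw [← hVdef] at k1
    have k2 := diff hU1 hρ.int hUε hgc hL (fun x => by rw [abs_norm]; exact hf.grad x)
    rw [← hGdef] at k2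
    have h1 : EU U (fun x => f x - m) = 0 := by
      rw [EU_sub_const U hU1 f hcont (1 / 2) hfb m, hm, sub_self]
    have h2 : EU U (fun x => (f x - m) ^ 2) =
        EU U (fun x => f x ^ 2) - EU U f ^ 2 := by
      rw [EU_sub_sq U hU1 f hcont (1 / 2) hfb m, ← hm]
      ring
    have h3 := Pool.Agent.R656.OP2.t_corl (Fin n) U b A hb hU1 δ c hδ hc (fun x => f x - m) L M hS
      hWP h1 (by
        rw [h2]
        have := (abs_le.1 k1).1
        rw [lt_div_iff₀ (by norm_num)] at hε2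
        linarith)
    rw [h2] at h3
    simp only [hfd] at h3
    have h4 : 0 ≤ EU U fun x => ‖fderiv ℝ f x‖ := by
      unfold EU
      exact integral_nonneg fun x => mul_nonneg (norm_nonneg _) (Real.exp_pos _).le
    have h5 : (EU U fun x => ‖fderiv ℝ f x‖) ≤ G + L * ε := by
      have := (abs_le.1 k2).2
      linarith
    have h6 := (abs_le.1 k1).1
    calc V - 3 * ε ≤ EU U (fun x => f x ^ 2) - EU U f ^ 2 := by linarith
      _ ≤ 4 / c * (EU U fun x => ‖fderiv ℝ f x‖) ^ 2 := h3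
      _ ≤ 4 / c * (G + L * ε) ^ 2 := by
        refine mul_le_mul_of_nonneg_left (pow_le_pow_left₀ h4 h5 2) (by positivity)
  have hfinal : V ≤ 4 / c * G ^ 2 := by
    have t1 : Tendsto (fun ε : ℝ => V - 3 * ε) (𝓝[>] 0) (𝓝 V) := by
      have h1 : Tendsto (fun ε : ℝ => V - 3 * ε) (𝓝 0) (𝓝 (V - 3 * 0)) :=
        (continuous_const.sub (continuous_const.mul continuous_id)).tendsto 0
      rw [mul_zero, sub_zero] at h1
      exact h1.mono_left nhdsWithin_le_nhds
    have t2 : Tendsto (fun ε : ℝ => 4 / c * (G + L * ε) ^ 2) (𝓝[>] 0) (𝓝 (4 / c * G ^ 2)) := by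
      have h1 : Tendsto (fun ε : ℝ => 4 / c * (G + L * ε) ^ 2) (𝓝 0)
          (𝓝 (4 / c * (G + L * 0) ^ 2)) :=
        (continuous_const.mul ((continuous_const.add
          (continuous_const.mul continuous_id)).pow 2)).tendsto 0
      rw [mul_zero, add_zero] at h1
      exact h1.mono_left nhdsWithin_le_nhds
    refine le_of_tendsto_of_tendsto t1 t2 ?_
    have h3 : 0 < (V - 4 * δ) / 3 := by
      have : 4 * δ < V := by linarith
      linarith
    filter_upwards [Ioo_mem_nhdsGT (lt_min hτ0p h3)] with ε hε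
    exact key ε hε.1 (hε.2.trans_le (min_le_left _ _)) (hε.2.trans_le (min_le_right _ _))
  rw [div_lt_iff₀ hV] at hc1
  have h9 : V * c ≤ 4 * G ^ 2 := by
    have : 4 / c * G ^ 2 = 4 * G ^ 2 / c := by ring
    rw [this, le_div_iff₀ hc] at hfinal
    exact hfinal
  linarith

end Pool.Agent.J4H8.OC.Bus

namespace Pool.Agent.J4H8.OC

theorem t_BUS (h : Pool.Agent.J4H58.OC.S_APX) : Pool.Agent.J4H58.OC.S_BUS := Bus.bus h

end Pool.Agent.J4H8.OC
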