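import Pool.Agent.J4H58.OC.Stm

/-!
# Project OC, job DISC: discretisation of the one-dimensional weighted Poincare inequality
-/

set_option autoImplicit false

namespace Pool.Agent.J4H8.OC

open MeasureTheory Set Filter Topology

/-- nodes -/
noncomputable def nd (N k : ℕ) : ℝ := ((k : ℝ) + 1 / 2) / N

/-- increments -/
noncomputable def inc (N : ℕ) (φ : ℕ → ℝ) (j : ℕ) : ℝ := if j < N then φ j - φ (j - 1) else 0

/-- derivative of the interpolation -/
noncomputable def ps (N : ℕ) (φ : ℕ → ℝ) (t : ℝ) : ℝ := N * inc N φ ⌈(N : ℝ) * t - 1 / 2⌉₊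

section
variable {N : ℕ} {φ : ℕ → ℝ}

lemma ps_meas : Measurable (ps N φ) := by
  unfold ps
  have h1 : Measurable fun t : ℝ => ⌈(N : ℝ) * t - 1 / 2⌉₊ :=
    Nat.measurable_ceil.comp ((measurable_const.mul measurable_id).sub measurable_const)
  exact measurable_const.mul ((measurable_from_nat (f := inc N φ)).comp h1)

lemma ps_bdd : ∃ B, ∀ x, |ps N φ x| ≤ B := by
  refine ⟨N * ∑ j ∈ Finset.range N, |inc N φ j|, fun x => ?_⟩
  unfold ps
  rw [abs_mul, Nat.abs_cast]
  refine mul_le_mul_of_nonneg_left ?_ (Nat.cast_nonneg _)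
  set j := ⌈(N : ℝ) * x - 1 / 2⌉₊
  by_cases h : j < N
  · exact Finset.single_le_sum (f := fun j => |inc N φ j|) (fun _ _ => abs_nonneg _)
      (Finset.mem_range.2 h)
  · have : inc N φ j = 0 := by
      unfold inc
      rw [if_neg h]
    rw [this, abs_zero]
    exact Finset.sum_nonneg fun _ _ => abs_nonneg _

lemma ps_int (a b : ℝ) : IntervalIntegrable (ps N φ) volume a b := by
  obtain ⟨B, hB⟩ := ps_bdd (N := N) (φ := φ)
  have h1 : IntervalIntegrable (fun _ : ℝ => B) volume a b := intervalIntegrable_const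
  exact h1.mono_fun ps_meas.aestronglyMeasurable
    (Eventually.of_forall fun x => by
      simp only [Real.norm_eq_abs]
      exact (hB x).trans (le_abs_self _))

lemma ps_left (hN : 0 < N) {t : ℝ} (ht : t ≤ nd N 0) : ps N φ t = 0 := by
  unfold nd at ht
  have hN0 : (0 : ℝ) < N := by exact_mod_cast hN
  rw [le_div_iff₀ hN0] at ht
  have h1 : ⌈(N : ℝ) * t - 1 / 2⌉₊ = 0 := by
    rw [Nat.ceil_eq_zero]
    push_cast at ht
    linarith
  unfold ps inc
  rw [h1, if_pos hN]
  simp

lemma ps_right (hN : 0 < N) {t : ℝ} (ht : nd N (N - 1) < t) : ps N φ t = 0 := by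
  unfold nd at ht
  have hN0 : (0 : ℝ) < N := by exact_mod_cast hN
  rw [div_lt_iff₀ hN0, Nat.cast_sub (by omega)] at ht
  push_cast at ht
  have h1 : ¬ ⌈(N : ℝ) * t - 1 / 2⌉₊ < N := by
    intro h
    have h2 : ⌈(N : ℝ) * t - 1 / 2⌉₊ ≤ N - 1 := by omega
    rw [Nat.ceil_le, Nat.cast_sub (by omega)] at h2
    push_cast at h2
    linarith
  unfold ps inc
  rw [if_neg h1, mul_zero]

lemma ps_mid {k : ℕ} (hk : k + 1 < N) {t : ℝ} (h1 : nd N k < t) (h2 : t ≤ nd N (k + 1)) :
    ps N φ t = N * (φ (k + 1) - φ k) := by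
  unfold nd at h1 h2
  have hN0 : (0 : ℝ) < N := by
    have : 0 < N := by omega
    exact_mod_cast this
  rw [div_lt_iff₀ hN0] at h1
  rw [le_div_iff₀ hN0] at h2
  have h3 : ⌈(N : ℝ) * t - 1 / 2⌉₊ = k + 1 := by
    rw [Nat.ceil_eq_iff (by omega)]
    push_cast at h2 ⊢
    constructor
    · linarith
    · linarith
  unfold ps inc
  rw [h3, if_pos hk, Nat.add_sub_cancel]

/-- primitive -/
noncomputable def pr (N : ℕ) (φ : ℕ → ℝ) (x : ℝ) : ℝ := ∫ t in (0 : ℝ)..x, ps N φ t

lemma pr_add (x y : ℝ) : pr N φ y = pr N φ x + ∫ t in x..y, ps N φ t :=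
  (intervalIntegral.integral_add_adjacent_intervals (ps_int _ _) (ps_int _ _)).symm

lemma pr_cont : Continuous (pr N φ) :=
  intervalIntegral.continuous_primitive (fun a b => ps_int a b) 0

lemma int_const {x y c : ℝ} (hxy : x ≤ y) (h : ∀ t, x < t → t ≤ y → ps N φ t = c) :
    ∫ t in x..y, ps N φ t = c * (y - x) := by
  rw [intervalIntegral.integral_congr_ae (g := fun _ => c)]
  · rw [intervalIntegral.integral_const, smul_eq_mul, mul_comm]
  · refine Eventually.of_forall fun t ht => ?_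
    rw [uIoc_of_le hxy] at ht
    exact h t ht.1 ht.2

lemma nd_nonneg (k : ℕ) : 0 ≤ nd N k := by
  unfold nd
  positivity

lemma nd_mono (hN : 0 < N) (k : ℕ) : nd N (k + 1) - nd N k = 1 / N := by
  have hN0 : (0 : ℝ) < N := by exact_mod_cast hN
  unfold nd
  push_cast
  field_simp
  ring

lemma nd_lt (hN : 0 < N) (k : ℕ) : nd N k < nd N (k + 1) := by
  have hN0 : (0 : ℝ) < N := by exact_mod_cast hN
  have h1 := nd_mono hN k
  have h2 : 0 < 1 / (N : ℝ) := by positivity
  linarith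

lemma pr_left (hN : 0 < N) {x : ℝ} (h0 : 0 ≤ x) (hx : x ≤ nd N 0) : pr N φ x = 0 := by
  unfold pr
  rw [int_const (c := 0) h0 (fun t _ h2 => ps_left hN (h2.trans hx)), zero_mul]

lemma pr_mid {k : ℕ} (hk : k + 1 < N) {x : ℝ} (h1 : nd N k ≤ x) (h2 : x ≤ nd N (k + 1)) :
    pr N φ x = pr N φ (nd N k) + N * (φ (k + 1) - φ k) * (x - nd N k) := by
  rw [pr_add (nd N k) x, int_const h1 (fun t h3 h4 => ps_mid hk h3 (h4.trans h2))]

lemma pr_nd : ∀ k : ℕ, k < N → pr N φ (nd N k) = φ k - φ 0 := by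
  intro k
  induction k with
  | zero =>
    intro hN
    rw [pr_left hN (nd_nonneg 0) le_rfl, sub_self]
  | succ k ih =>
    intro hk
    have hN : 0 < N := by omega
    have hN0 : (0 : ℝ) < N := by exact_mod_cast hN
    rw [pr_mid hk (nd_lt hN k).le le_rfl, ih (by omega), nd_mono hN]
    field_simp
    ring

lemma pr_right (hN : 0 < N) {x : ℝ} (h1 : nd N (N - 1) ≤ x) :
    pr N φ x = φ (N - 1) - φ 0 := by
  rw [pr_add (nd N (N - 1)) x, int_const (c := 0) h1 (fun t h3 _ => ps_right hN h3),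
    pr_nd (N - 1) (by omega), zero_mul, add_zero]

lemma int_lin (s t α β : ℝ) : ∫ x in s..t, (α + β * (x - s)) =
    α * (t - s) + β * (t - s) ^ 2 / 2 := by
  have h : ∀ x ∈ uIcc s t, HasDerivAt (fun x => α * (x - s) + β * (x - s) ^ 2 / 2)
      (α + β * (x - s)) x := by
    intro x _
    have h1 : HasDerivAt (fun x : ℝ => x - s) 1 x := (hasDerivAt_id x).sub_const s
    have h2 := (h1.const_mul α).add (((h1.pow 2).const_mul β).div_const 2)
    convert! h2 using 1
    simp
    ring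
  rw [intervalIntegral.integral_eq_sub_of_hasDerivAt h
    (by apply Continuous.intervalIntegrable; fun_prop)]
  ring

lemma int_sq (s t α β : ℝ) : ∫ x in s..t, (α + β * (x - s)) ^ 2 =
    α ^ 2 * (t - s) + α * β * (t - s) ^ 2 + β ^ 2 * (t - s) ^ 3 / 3 := by
  have h : ∀ x ∈ uIcc s t, HasDerivAt
      (fun x => α ^ 2 * (x - s) + α * β * (x - s) ^ 2 + β ^ 2 * (x - s) ^ 3 / 3)
      ((α + β * (x - s)) ^ 2) x := by
    intro x _
    have h1 : HasDerivAt (fun x : ℝ => x - s) 1 x := (hasDerivAt_id x).sub_const s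
    have h2 := ((h1.const_mul (α ^ 2)).add ((h1.pow 2).const_mul (α * β))).add
      (((h1.pow 3).const_mul (β ^ 2)).div_const 3)
    convert! h2 using 1
    simp
    ring
  rw [intervalIntegral.integral_eq_sub_of_hasDerivAt h
    (by apply Continuous.intervalIntegrable; fun_prop)]
  ring

/-- splitting of the unit interval -/
lemma split {f : ℝ → ℝ} (hl : IntervalIntegrable f volume 0 (nd N 0))
    (hm : ∀ k, k < N - 1 → IntervalIntegrable f volume (nd N k) (nd N (k + 1)))
    (hr : IntervalIntegrable f volume (nd N (N - 1)) 1) :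
    ∫ x in (0 : ℝ)..1, f x = (∫ x in (0 : ℝ)..nd N 0, f x) +
      (∑ k ∈ Finset.range (N - 1), ∫ x in nd N k..nd N (k + 1), f x) +
        ∫ x in nd N (N - 1)..1, f x := by
  have h1 : IntervalIntegrable f volume (nd N 0) (nd N (N - 1)) :=
    IntervalIntegrable.trans_iterate hm
  rw [intervalIntegral.sum_integral_adjacent_intervals hm,
    intervalIntegral.integral_add_adjacent_intervals hl h1,
    intervalIntegral.integral_add_adjacent_intervals (hl.trans h1) hr]

lemma nd_last (hN : 0 < N) : 1 - nd N (N - 1) = 1 / (2 * N) := by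
  have hN0 : (0 : ℝ) < N := by exact_mod_cast hN
  unfold nd
  rw [Nat.cast_sub (by omega)]
  push_cast
  field_simp
  ring

lemma nd_zero (hN : 0 < N) : nd N 0 = 1 / (2 * N) := by
  have hN0 : (0 : ℝ) < N := by exact_mod_cast hN
  unfold nd
  push_cast
  field_simp
  ring

lemma trap (w : ℕ → ℝ) : ∀ n : ℕ, (w 0 + w n) / 2 + ∑ k ∈ Finset.range n, (w k + w (k + 1)) / 2 =
    ∑ k ∈ Finset.range (n + 1), w k := by
  intro n
  induction n with
  | zero => simp
  | succ n ih =>
    rw [Finset.sum_range_succ, Finset.sum_range_succ (n := n + 1), ← ih]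
    ring

lemma int_pr (hN : 0 < N) : ∫ x in (0 : ℝ)..1, pr N φ x =
    (∑ k ∈ Finset.range N, (φ k - φ 0)) / N := by
  have hN0 : (0 : ℝ) < N := by exact_mod_cast hN
  have hc : ∀ a b, IntervalIntegrable (pr N φ) volume a b :=
    fun a b => pr_cont.intervalIntegrable a b
  rw [split (hc _ _) (fun k _ => hc _ _) (hc _ _)]
  have e1 : ∫ x in (0 : ℝ)..nd N 0, pr N φ x = 0 := by
    rw [intervalIntegral.integral_congr (g := fun _ => 0)]
    · simp
    · intro x hx
      rw [uIcc_of_le (nd_nonneg 0)] at hx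
      exact pr_left hN hx.1 hx.2
  have hlast : nd N (N - 1) ≤ 1 := by
    have := nd_last hN
    have : 0 < 1 / (2 * (N : ℝ)) := by positivity
    linarith
  have e2 : ∫ x in nd N (N - 1)..1, pr N φ x = (φ (N - 1) - φ 0) * (1 / (2 * N)) := by
    rw [intervalIntegral.integral_congr (g := fun _ => φ (N - 1) - φ 0)]
    · rw [intervalIntegral.integral_const, smul_eq_mul, nd_last hN, mul_comm]
    · intro x hx
      rw [uIcc_of_le hlast] at hx
      exact pr_right hN hx.1
  have e3 : ∀ k ∈ Finset.range (N - 1), ∫ x in nd N k..nd N (k + 1), pr N φ x =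
      ((φ k - φ 0) + (φ (k + 1) - φ 0)) / 2 / N := by
    intro k hk
    rw [Finset.mem_range] at hk
    rw [intervalIntegral.integral_congr
      (g := fun x => (φ k - φ 0) + N * (φ (k + 1) - φ k) * (x - nd N k))]
    · rw [int_lin, nd_mono hN]
      field_simp
      ring
    · intro x hx
      rw [uIcc_of_le (nd_lt hN k).le] at hx
      simp only
      rw [pr_mid (by omega) hx.1 hx.2, pr_nd k (by omega)]
  rw [e1, e2, Finset.sum_congr rfl e3, ← Finset.sum_div]
  have h1 := trap (fun k => φ k - φ 0) (N - 1)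
  rw [Nat.sub_add_cancel hN] at h1
  rw [← h1]
  field_simp
  ring

lemma int_pr2 (hN : 0 < N) : ∫ x in (0 : ℝ)..1, pr N φ x ^ 2 =
    (∑ k ∈ Finset.range N, (φ k - φ 0) ^ 2) / N -
      (∑ k ∈ Finset.range (N - 1), (φ (k + 1) - φ k) ^ 2) / (6 * N) := by
  have hN0 : (0 : ℝ) < N := by exact_mod_cast hN
  have hc : ∀ a b, IntervalIntegrable (fun x => pr N φ x ^ 2) volume a b :=
    fun a b => (pr_cont.pow 2).intervalIntegrable a b
  rw [split (hc _ _) (fun k _ => hc _ _) (hc _ _)]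
  have e1 : ∫ x in (0 : ℝ)..nd N 0, pr N φ x ^ 2 = 0 := by
    rw [intervalIntegral.integral_congr (g := fun _ => 0)]
    · simp
    · intro x hx
      rw [uIcc_of_le (nd_nonneg 0)] at hx
      simp only
      rw [pr_left hN hx.1 hx.2]
      norm_num
  have hlast : nd N (N - 1) ≤ 1 := by
    have := nd_last hN
    have : 0 < 1 / (2 * (N : ℝ)) := by positivity
    linarith
  have e2 : ∫ x in nd N (N - 1)..1, pr N φ x ^ 2 = (φ (N - 1) - φ 0) ^ 2 * (1 / (2 * N)) := by
    rw [intervalIntegral.integral_congr (g := fun _ => (φ (N - 1) - φ 0) ^ 2)]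
    · rw [intervalIntegral.integral_const, smul_eq_mul, nd_last hN, mul_comm]
    · intro x hx
      rw [uIcc_of_le hlast] at hx
      simp only
      rw [pr_right hN hx.1]
  have e3 : ∀ k ∈ Finset.range (N - 1), ∫ x in nd N k..nd N (k + 1), pr N φ x ^ 2 =
      ((φ k - φ 0) ^ 2 + (φ (k + 1) - φ 0) ^ 2) / 2 / N - (φ (k + 1) - φ k) ^ 2 / (6 * N) := by
    intro k hk
    rw [Finset.mem_range] at hk
    rw [intervalIntegral.integral_congr
      (g := fun x => ((φ k - φ 0) + N * (φ (k + 1) - φ k) * (x - nd N k)) ^ 2)]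
    · rw [int_sq, nd_mono hN]
      field_simp
      ring
    · intro x hx
      rw [uIcc_of_le (nd_lt hN k).le] at hx
      simp only
      rw [pr_mid (by omega) hx.1 hx.2, pr_nd k (by omega)]
  have e4 : ∑ k ∈ Finset.range (N - 1), (((φ k - φ 0) ^ 2 + (φ (k + 1) - φ 0) ^ 2) / 2 / N -
      (φ (k + 1) - φ k) ^ 2 / (6 * N)) =
      (∑ k ∈ Finset.range (N - 1), ((φ k - φ 0) ^ 2 + (φ (k + 1) - φ 0) ^ 2) / 2) / N -
        (∑ k ∈ Finset.range (N - 1), (φ (k + 1) - φ k) ^ 2) / (6 * N) := by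
    rw [Finset.sum_sub_distrib, Finset.sum_div, Finset.sum_div]
  have h1 := trap (fun k => (φ k - φ 0) ^ 2) (N - 1)
  rw [Nat.sub_add_cancel hN] at h1
  rw [e1, e2, Finset.sum_congr rfl e3, e4, ← h1]
  generalize ∑ k ∈ Finset.range (N - 1), ((φ k - φ 0) ^ 2 + (φ (k + 1) - φ 0) ^ 2) / 2 = X
  generalize ∑ k ∈ Finset.range (N - 1), (φ (k + 1) - φ k) ^ 2 = Y
  field_simp
  ring

end

/-- OC-DISC -/
theorem t_DISC : Pool.Agent.J4H58.OC.S_DISC := by
  intro a ha ha0 hOne η hη
  have huc := isCompact_Icc.uniformContinuousOn_of_continuous ha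
  rw [Metric.uniformContinuousOn_iff] at huc
  obtain ⟨δ, hδ, hδ'⟩ := huc (η / 2) (by positivity)
  obtain ⟨N₁, hN₁⟩ := exists_nat_gt (1 / δ)
  obtain ⟨N₂, hN₂⟩ := exists_nat_gt (1 / η)
  filter_upwards [eventually_ge_atTop (N₁ + N₂ + 1)] with N hN φ
  have hN' : 0 < N := by omega
  have hN0 : (0 : ℝ) < N := by exact_mod_cast hN'
  have hNδ : 1 / (N : ℝ) < δ := by
    have h1 : (N₁ : ℝ) ≤ N := by
      have : N₁ ≤ N := by omega
      exact_mod_cast this
    rw [div_lt_iff₀ hN0]
    rw [div_lt_iff₀ hδ] at hN₁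
    nlinarith
  have hNη : 1 / 6 ≤ (N : ℝ) ^ 2 * (η / 2) := by
    have h1 : (N₂ : ℝ) ≤ N := by
      have : N₂ ≤ N := by omega
      exact_mod_cast this
    have h1' : (1 : ℝ) ≤ N := by exact_mod_cast hN'
    rw [div_lt_iff₀ hη] at hN₂
    have h2 : 1 < (N : ℝ) * η := by nlinarith
    nlinarith
  have hlast : nd N (N - 1) ≤ 1 := by
    have := nd_last hN'
    have : 0 < 1 / (2 * (N : ℝ)) := by positivity
    linarith
  have hndle : ∀ k, k < N → nd N k ≤ 1 := by
    intro k hk
    refine le_trans ?_ hlast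
    unfold nd
    have : (k : ℝ) ≤ ((N - 1 : ℕ) : ℝ) := by
      have : k ≤ N - 1 := by omega
      exact_mod_cast this
    gcongr
  -- the right-hand side
  set f : ℝ → ℝ := fun x => a x * ps N φ x ^ 2 with hf
  have hl : IntervalIntegrable f volume 0 (nd N 0) := by
    have h0 : IntervalIntegrable (fun _ : ℝ => (0 : ℝ)) volume 0 (nd N 0) := intervalIntegrable_const
    refine h0.congr_ae ?_
    rw [Filter.EventuallyEq, ae_restrict_iff' measurableSet_uIoc]
    refine Eventually.of_forall fun x hx => ?_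
    rw [uIoc_of_le (nd_nonneg 0)] at hx
    simp only [hf]
    rw [ps_left hN' hx.2]
    ring
  have hr : IntervalIntegrable f volume (nd N (N - 1)) 1 := by
    have h0 : IntervalIntegrable (fun _ : ℝ => (0 : ℝ)) volume (nd N (N - 1)) 1 :=
      intervalIntegrable_const
    refine h0.congr_ae ?_
    rw [Filter.EventuallyEq, ae_restrict_iff' measurableSet_uIoc]
    refine Eventually.of_forall fun x hx => ?_
    rw [uIoc_of_le hlast] at hx
    simp only [hf]
    rw [ps_right hN' hx.1]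
    ring
  have hsub : ∀ k, k < N - 1 → Icc (nd N k) (nd N (k + 1)) ⊆ Icc (0 : ℝ) 1 := fun k hk =>
    Icc_subset_Icc (nd_nonneg k) (hndle (k + 1) (by omega))
  have haint : ∀ k, k < N - 1 → IntervalIntegrable a volume (nd N k) (nd N (k + 1)) := by
    intro k hk
    refine ContinuousOn.intervalIntegrable ?_
    rw [uIcc_of_le (nd_lt hN' k).le]
    exact ha.mono (hsub k hk)
  have hae : ∀ k, k < N - 1 → ∀ x ∈ uIoc (nd N k) (nd N (k + 1)),
      a x * (N * (φ (k + 1) - φ k)) ^ 2 = f x := by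
    intro k hk x hx
    rw [uIoc_of_le (nd_lt hN' k).le] at hx
    simp only [hf]
    rw [ps_mid (by omega) hx.1 hx.2]
  have hm : ∀ k, k < N - 1 → IntervalIntegrable f volume (nd N k) (nd N (k + 1)) := by
    intro k hk
    refine ((haint k hk).mul_const ((N * (φ (k + 1) - φ k)) ^ 2)).congr_ae ?_
    rw [Filter.EventuallyEq, ae_restrict_iff' measurableSet_uIoc]
    exact Eventually.of_forall fun x hx => hae k hk x hx
  have hR : ∫ x in (0 : ℝ)..1, a x * ps N φ x ^ 2 ≤
      ∑ k ∈ Finset.range (N - 1), (1 / N * (a (((k : ℝ) + 1) / N) + η / 2)) *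
        (N * (φ (k + 1) - φ k)) ^ 2 := by
    have h1 := split hl hm hr
    have e1 : ∫ x in (0 : ℝ)..nd N 0, f x = 0 := by
      rw [intervalIntegral.integral_congr_ae (g := fun _ => 0)]
      · simp
      · refine Eventually.of_forall fun x hx => ?_
        rw [uIoc_of_le (nd_nonneg 0)] at hx
        simp only [hf]
        rw [ps_left hN' hx.2]
        ring
    have e2 : ∫ x in nd N (N - 1)..1, f x = 0 := by
      rw [intervalIntegral.integral_congr_ae (g := fun _ => 0)]
      · simp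
      · refine Eventually.of_forall fun x hx => ?_
        rw [uIoc_of_le hlast] at hx
        simp only [hf]
        rw [ps_right hN' hx.1]
        ring
    change ∫ x in (0 : ℝ)..1, f x ≤ _
    rw [h1, e1, e2, zero_add, add_zero]
    refine Finset.sum_le_sum fun k hk => ?_
    rw [Finset.mem_range] at hk
    have e3 : ∫ x in nd N k..nd N (k + 1), f x =
        (∫ x in nd N k..nd N (k + 1), a x) * (N * (φ (k + 1) - φ k)) ^ 2 := by
      rw [← intervalIntegral.integral_mul_const]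
      exact (intervalIntegral.integral_congr_ae (Eventually.of_forall fun x hx => hae k hk x hx)).symm
    rw [e3]
    refine mul_le_mul_of_nonneg_right ?_ (sq_nonneg _)
    have hmid : ((k : ℝ) + 1) / N ∈ Icc (nd N k) (nd N (k + 1)) := by
      unfold nd
      push_cast
      constructor
      · exact div_le_div_of_nonneg_right (by linarith) hN0.le
      · exact div_le_div_of_nonneg_right (by linarith) hN0.le
    have h2 : ∀ x ∈ Icc (nd N k) (nd N (k + 1)), a x ≤ a (((k : ℝ) + 1) / N) + η / 2 := by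
      intro x hx
      have h3 := hδ' x (hsub k hk hx) _ (hsub k hk hmid) (by
        rw [Real.dist_eq]
        refine lt_of_le_of_lt ?_ hNδ
        have h4 := nd_mono hN' k
        rw [abs_le]
        constructor
        · linarith [hx.1, hx.2, hmid.1, hmid.2]
        · linarith [hx.1, hx.2, hmid.1, hmid.2])
      rw [Real.dist_eq] at h3
      have := (abs_lt.1 h3).2
      linarith
    have h5 : ∫ x in nd N k..nd N (k + 1), a x ≤
        ∫ _ in nd N k..nd N (k + 1), (a (((k : ℝ) + 1) / N) + η / 2) :=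
      intervalIntegral.integral_mono_on (nd_lt hN' k).le (haint k hk) intervalIntegrable_const h2
    rw [intervalIntegral.integral_const, smul_eq_mul, nd_mono hN'] at h5
    exact h5
  have hmain := hOne (ps N φ) ps_meas ps_bdd
  have hmain' : (∫ x in (0 : ℝ)..1, pr N φ x ^ 2) - (∫ x in (0 : ℝ)..1, pr N φ x) ^ 2 ≤
      ∫ x in (0 : ℝ)..1, a x * ps N φ x ^ 2 := hmain
  rw [int_pr hN', int_pr2 hN'] at hmain'
  have h6 := hmain'.trans hR
  -- shift
  set S1 := ∑ k ∈ Finset.range N, (φ k - φ 0) with hS1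
  set S2 := ∑ k ∈ Finset.range N, (φ k - φ 0) ^ 2 with hS2
  set D := ∑ k ∈ Finset.range (N - 1), (φ (k + 1) - φ k) ^ 2 with hD
  have hshift : (N : ℝ) * ∑ k ∈ Finset.range N, φ k ^ 2 - (∑ k ∈ Finset.range N, φ k) ^ 2 =
      N * S2 - S1 ^ 2 := by
    have e1 : S1 = ∑ k ∈ Finset.range N, φ k - N * φ 0 := by
      rw [hS1, Finset.sum_sub_distrib, Finset.sum_const, Finset.card_range, nsmul_eq_mul]
    have e2 : S2 = ∑ k ∈ Finset.range N, φ k ^ 2 - 2 * φ 0 * ∑ k ∈ Finset.range N, φ k +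
        N * φ 0 ^ 2 := by
      rw [hS2, Finset.mul_sum, ← Finset.sum_sub_distrib]
      have e3 : (N : ℝ) * φ 0 ^ 2 = ∑ k ∈ Finset.range N, φ 0 ^ 2 := by
        rw [Finset.sum_const, Finset.card_range, nsmul_eq_mul]
      rw [e3, ← Finset.sum_add_distrib]
      exact Finset.sum_congr rfl fun k _ => by ring
    rw [e1, e2]
    ring
  rw [hshift]
  have h7 : N * S2 - S1 ^ 2 ≤ N * (D / 6) + (N : ℝ) ^ 2 *
      ∑ k ∈ Finset.range (N - 1), (1 / N * (a (((k : ℝ) + 1) / N) + η / 2)) *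
        (N * (φ (k + 1) - φ k)) ^ 2 := by
    have h8 := mul_le_mul_of_nonneg_left h6 (sq_nonneg (N : ℝ))
    have e1 : (N : ℝ) ^ 2 * (S2 / N - D / (6 * N) - (S1 / N) ^ 2) =
        N * S2 - N * (D / 6) - S1 ^ 2 := by
      field_simp
    rw [e1] at h8
    linarith
  refine h7.trans ?_
  have e4 : (N : ℝ) * (D / 6) + (N : ℝ) ^ 2 *
      ∑ k ∈ Finset.range (N - 1), (1 / N * (a (((k : ℝ) + 1) / N) + η / 2)) *
        (N * (φ (k + 1) - φ k)) ^ 2 = N * ∑ k ∈ Finset.range (N - 1),
          (1 / 6 + (N : ℝ) ^ 2 * (a (((k : ℝ) + 1) / N) + η / 2)) * (φ (k + 1) - φ k) ^ 2 := by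
    rw [hD, Finset.sum_div, Finset.mul_sum, Finset.mul_sum, Finset.mul_sum, ← Finset.sum_add_distrib]
    refine Finset.sum_congr rfl fun k _ => ?_
    field_simp
  rw [e4]
  refine mul_le_mul_of_nonneg_left ?_ hN0.le
  rw [Finset.mul_sum]
  refine Finset.sum_le_sum fun k hk => ?_
  rw [Finset.mem_range] at hk
  unfold Pool.Agent.J4H58.OC.rt
  have hmem : ((k : ℝ) + 1) / N ∈ Icc (0 : ℝ) 1 := by
    constructor
    · positivity
    · rw [div_le_one hN0]
      have : k + 1 ≤ N := by omega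
      exact_mod_cast this
  have hak := ha0 _ hmem
  rw [← mul_assoc]
  refine mul_le_mul_of_nonneg_right ?_ (sq_nonneg _)
  set A := a (((k : ℝ) + 1) / N) with hA
  have h9 : 1 / 6 + (N : ℝ) ^ 2 * (A + η / 2) ≤ (N : ℝ) ^ 2 * (A + η) := by nlinarith
  refine h9.trans ?_
  have h10 : 0 ≤ (N : ℝ) ^ 2 * (A + η) := by positivity
  nlinarith

end Pool.Agent.J4H8.OC
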