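import Pool.Agent.J4H58.OC.Stm

/-!
# Project OC, job PF: the positive extremal function of the path
-/

set_option autoImplicit false

namespace Pool.Agent.J4H8.OC

open Finset Set

/-- Perron-Frobenius for a symmetric positive matrix and a positive diagonal form. -/
theorem perron {n : ℕ} (hn : 0 < n) (A : Fin n → Fin n → ℝ) (hsym : ∀ i j, A i j = A j i)
    (hA : ∀ i j, 0 < A i j) (c : Fin n → ℝ) (hc : ∀ i, 0 < c i) (K : ℝ)
    (hK : ∀ x : Fin n → ℝ, ∑ i, ∑ j, A i j * x i * x j ≤ K * ∑ i, c i * x i ^ 2) :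
    ∃ (lam : ℝ) (d : Fin n → ℝ), 0 < lam ∧ lam ≤ K ∧ (∀ i, 0 < d i) ∧
      ∀ i, ∑ j, A i j * d j = lam * c i * d i := by
  classical
  set B : (Fin n → ℝ) → ℝ := fun x => ∑ i, ∑ j, A i j * x i * x j with hB
  set Q : (Fin n → ℝ) → ℝ := fun x => ∑ i, c i * x i ^ 2 with hQ
  have hBc : Continuous B := by
    simp only [hB]
    fun_prop
  have hQc : Continuous Q := by
    simp only [hQ]
    fun_prop
  have hclosed : IsClosed {x | Q x = 1} := isClosed_eq hQc continuous_const
  have hbound : Bornology.IsBounded {x | Q x = 1} := by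
    rw [Metric.isBounded_iff_subset_closedBall 0]
    refine ⟨1 + ∑ j, 1 / c j, fun x hx => ?_⟩
    have hs0 : 0 ≤ ∑ j, 1 / c j := Finset.sum_nonneg fun j _ => (one_div_pos.2 (hc j)).le
    rw [mem_closedBall_zero_iff, pi_norm_le_iff_of_nonneg (by linarith)]
    intro i
    have h1 : c i * x i ^ 2 ≤ 1 := by
      have h2 : c i * x i ^ 2 ≤ Q x :=
        Finset.single_le_sum (f := fun i => c i * x i ^ 2)
          (fun j _ => mul_nonneg (hc j).le (sq_nonneg _)) (Finset.mem_univ i)
      exact h2.trans (le_of_eq hx)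
    have h3 : x i ^ 2 ≤ 1 / c i := by
      rw [le_div_iff₀ (hc i)]
      linarith
    have h4 : 1 / c i ≤ ∑ j, 1 / c j :=
      Finset.single_le_sum (f := fun j => 1 / c j)
        (fun j _ => (one_div_pos.2 (hc j)).le) (Finset.mem_univ i)
    rw [Real.norm_eq_abs]
    nlinarith [sq_abs (x i), abs_nonneg (x i)]
  have hcomp : IsCompact {x | Q x = 1} := Metric.isCompact_of_isClosed_isBounded hclosed hbound
  -- scaling
  have hBs : ∀ (t : ℝ) x, B (t • x) = t ^ 2 * B x := by
    intro t x
    simp only [hB, Pi.smul_apply, smul_eq_mul, Finset.mul_sum]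
    refine Finset.sum_congr rfl fun i _ => Finset.sum_congr rfl fun j _ => ?_
    ring
  have hQs : ∀ (t : ℝ) x, Q (t • x) = t ^ 2 * Q x := by
    intro t x
    simp only [hQ, Pi.smul_apply, smul_eq_mul, Finset.mul_sum]
    refine Finset.sum_congr rfl fun i _ => ?_
    ring
  have hQpos : ∀ x, x ≠ 0 → 0 < Q x := by
    intro x hx
    obtain ⟨i, hi⟩ := Function.ne_iff.1 hx
    have h1 : 0 < c i * x i ^ 2 := mul_pos (hc i) (by
      have : x i ≠ 0 := hi
      positivity)
    exact lt_of_lt_of_le h1 (Finset.single_le_sum (f := fun i => c i * x i ^ 2)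
      (fun j _ => mul_nonneg (hc j).le (sq_nonneg _)) (Finset.mem_univ i))
  have hnorm : ∀ x, x ≠ 0 → Q ((Real.sqrt (Q x))⁻¹ • x) = 1 := by
    intro x hx
    rw [hQs, inv_pow, Real.sq_sqrt (hQpos x hx).le]
    exact inv_mul_cancel₀ (hQpos x hx).ne'
  have hone : (fun _ => 1 : Fin n → ℝ) ≠ 0 := by
    intro h
    have := congrFun h ⟨0, hn⟩
    simp at this
  have hne : {x | Q x = 1}.Nonempty := ⟨_, hnorm _ hone⟩
  obtain ⟨d₀, hd₀, hmax₀⟩ := hcomp.exists_isMaxOn hne hBc.continuousOn
  -- the absolute values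
  set d : Fin n → ℝ := fun i => |d₀ i| with hd
  have hQd : Q d = 1 := by
    rw [← (show Q d₀ = 1 from hd₀)]
    simp only [hQ, hd, sq_abs]
  have hBd : B d₀ ≤ B d := by
    simp only [hB, hd]
    refine Finset.sum_le_sum fun i _ => Finset.sum_le_sum fun j _ => ?_
    have h1 : d₀ i * d₀ j ≤ |d₀ i| * |d₀ j| := by
      rw [← abs_mul]
      exact le_abs_self _
    have h2 := mul_le_mul_of_nonneg_left h1 (hA i j).le
    calc A i j * d₀ i * d₀ j = A i j * (d₀ i * d₀ j) := by ring
      _ ≤ A i j * (|d₀ i| * |d₀ j|) := h2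
      _ = _ := by ring
  have hd0 : ∀ i, 0 ≤ d i := fun i => abs_nonneg _
  have hdne : d ≠ 0 := by
    intro h
    rw [h] at hQd
    simp [hQ] at hQd
  obtain ⟨i₀, hi₀⟩ : ∃ i, 0 < d i := by
    obtain ⟨i, hi⟩ := Function.ne_iff.1 hdne
    exact ⟨i, lt_of_le_of_ne (hd0 i) (Ne.symm hi)⟩
  set lam := B d with hlam
  have hAd : ∀ i, 0 < ∑ j, A i j * d j := by
    intro i
    exact lt_of_lt_of_le (mul_pos (hA i i₀) hi₀)
      (Finset.single_le_sum (f := fun j => A i j * d j)
        (fun j _ => mul_nonneg (hA i j).le (hd0 j)) (Finset.mem_univ i₀))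
  have hlampos : 0 < lam := by
    have h1 : lam = ∑ i, d i * ∑ j, A i j * d j := by
      simp only [hlam, hB, Finset.mul_sum]
      refine Finset.sum_congr rfl fun i _ => Finset.sum_congr rfl fun j _ => ?_
      ring
    rw [h1]
    exact lt_of_lt_of_le (mul_pos hi₀ (hAd i₀))
      (Finset.single_le_sum (f := fun i => d i * ∑ j, A i j * d j)
        (fun i _ => mul_nonneg (hd0 i) (hAd i).le) (Finset.mem_univ i₀))
  have hle : ∀ x, B x ≤ lam * Q x := by
    intro x
    by_cases hx : x = 0
    · subst hx
      simp [hB, hQ]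
    · have h1 : B ((Real.sqrt (Q x))⁻¹ • x) ≤ B d₀ := hmax₀ (hnorm x hx)
      rw [hBs, inv_pow, Real.sq_sqrt (hQpos x hx).le] at h1
      have h2 := h1.trans hBd
      rwa [inv_mul_le_iff₀ (hQpos x hx), mul_comm] at h2
  have hlamK : lam ≤ K := by
    have h1 := hK d
    have h2 : (∑ i, c i * d i ^ 2) = 1 := hQd
    rw [h2, mul_one] at h1
    exact h1
  -- Euler-Lagrange
  have hEL : ∀ i, ∑ j, A i j * d j = lam * c i * d i := by
    intro i
    set e : Fin n → ℝ := Pi.single i 1 with he
    set p : ℝ := ∑ j, A i j * d j with hp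
    set a : ℝ := B e with ha
    have hBt : ∀ t : ℝ, B (d + t • e) = lam + 2 * t * p + t ^ 2 * a := by
      intro t
      have e1 : B (d + t • e) = ∑ i', ∑ j, (A i' j * d i' * d j + t * (A i' j * e i' * d j) +
          t * (A i' j * d i' * e j) + t ^ 2 * (A i' j * e i' * e j)) := by
        simp only [hB, Pi.add_apply, Pi.smul_apply, smul_eq_mul]
        refine Finset.sum_congr rfl fun i' _ => Finset.sum_congr rfl fun j _ => ?_
        ring
      rw [e1]
      simp only [Finset.sum_add_distrib, ← Finset.mul_sum]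
      have e2 : ∑ i', ∑ j, A i' j * e i' * d j = p := by
        rw [Finset.sum_eq_single i]
        · simp [he, hp]
        · intro b _ hb
          simp [he, hb]
        · intro h
          exact absurd (Finset.mem_univ i) h
      have e3 : ∑ i', ∑ j, A i' j * d i' * e j = p := by
        rw [Finset.sum_comm, Finset.sum_eq_single i]
        · simp only [he, hp, Pi.single_eq_same, mul_one]
          exact Finset.sum_congr rfl fun j _ => by rw [hsym j i]
        · intro b _ hb
          simp [he, hb]
        · intro h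
          exact absurd (Finset.mem_univ i) h
      rw [e2, e3]
      have e4 : ∑ i', ∑ j, A i' j * d i' * d j = lam := rfl
      have e5 : ∑ i', ∑ j, A i' j * e i' * e j = a := rfl
      rw [e4, e5]
      ring
    have hQt : ∀ t : ℝ, Q (d + t • e) = 1 + 2 * t * (c i * d i) + t ^ 2 * c i := by
      intro t
      have e1 : Q (d + t • e) = ∑ i', (c i' * d i' ^ 2 + 2 * t * (c i' * d i' * e i') +
          t ^ 2 * (c i' * e i' ^ 2)) := by
        simp only [hQ, Pi.add_apply, Pi.smul_apply, smul_eq_mul]
        refine Finset.sum_congr rfl fun i' _ => ?_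
        ring
      rw [e1]
      simp only [Finset.sum_add_distrib, ← Finset.mul_sum]
      have e2 : ∑ i', c i' * d i' * e i' = c i * d i := by
        rw [Finset.sum_eq_single i]
        · simp [he]
        · intro b _ hb
          simp [he, hb]
        · intro h
          exact absurd (Finset.mem_univ i) h
      have e3 : ∑ i', c i' * e i' ^ 2 = c i := by
        rw [Finset.sum_eq_single i]
        · simp [he]
        · intro b _ hb
          simp [he, hb]
        · intro h
          exact absurd (Finset.mem_univ i) h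
      have e4 : ∑ i', c i' * d i' ^ 2 = 1 := hQd
      rw [e2, e3, e4]
    have hquad : ∀ t : ℝ, 0 ≤ (lam * c i - a) * (t * t) + 2 * (lam * c i * d i - p) * t + 0 := by
      intro t
      have h1 := hle (d + t • e)
      rw [hBt, hQt] at h1
      nlinarith
    have hdisc := discrim_le_zero hquad
    unfold discrim at hdisc
    have h5 : (2 * (lam * c i * d i - p)) ^ 2 ≤ 0 := by linarith
    have h6 : 2 * (lam * c i * d i - p) = 0 := by
      have := le_antisymm h5 (sq_nonneg _)
      exact pow_eq_zero_iff (two_ne_zero) |>.1 this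
    linarith
  refine ⟨lam, d, hlampos, hlamK, fun i => ?_, hEL⟩
  have h1 := hAd i
  rw [hEL i] at h1
  have h2 := mul_pos hlampos (hc i)
  by_contra h3
  have h4 : d i = 0 := le_antisymm (not_lt.1 h3) (hd0 i)
  rw [h4, mul_zero] at h1
  exact lt_irrefl _ h1

/-- the step function -/
noncomputable def us (i k : ℕ) : ℝ := if i < k then 1 else 0

/-- OC-PF -/
theorem t_PF : Pool.Agent.J4H58.OC.S_PF := by
  intro N c K hc hP
  rcases Nat.lt_or_ge N 2 with hN | hN
  · refine ⟨fun _ => 0, fun _ => 0, 0, ⟨fun k hk => by omega, fun k hk => by omega, fun j hj => ?_⟩,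
      fun k hk => by omega⟩
    simp
  have hN0 : (0 : ℝ) < N := by
    have : 0 < N := by omega
    exact_mod_cast this
  set n := N - 1 with hn
  have hn0 : 0 < n := by omega
  set A : Fin n → Fin n → ℝ := fun i j =>
    (∑ k ∈ range N, us i k * us j k) - (∑ k ∈ range N, us i k) * (∑ k ∈ range N, us j k) / N with hA
  have hus : ∀ i : ℕ, i < N → ∑ k ∈ range N, us i k = N - 1 - i := by
    intro i hi
    unfold us
    rw [Finset.sum_ite, Finset.sum_const_zero, add_zero, Finset.sum_const, nsmul_eq_mul, mul_one]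
    have h1 : ((range N).filter fun k => i < k) = Finset.Ico (i + 1) N := by
      ext k
      simp only [Finset.mem_filter, Finset.mem_range, Finset.mem_Ico]
      omega
    rw [h1, Nat.card_Ico, Nat.cast_sub (by omega)]
    push_cast
    ring
  have hus2 : ∀ i j : ℕ, i ≤ j → j < N → ∑ k ∈ range N, us i k * us j k = N - 1 - j := by
    intro i j hij hj
    rw [← hus j hj]
    refine Finset.sum_congr rfl fun k _ => ?_
    unfold us
    by_cases h : j < k
    · rw [if_pos h, if_pos (by omega), one_mul]
    · rw [if_neg h, mul_zero]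
  have hApos' : ∀ i j : ℕ, i ≤ j → j < n →
      0 < (∑ k ∈ range N, us i k * us j k) -
        (∑ k ∈ range N, us i k) * (∑ k ∈ range N, us j k) / N := by
    intro i j hij hj
    rw [hus2 i j hij (by omega), hus i (by omega), hus j (by omega)]
    have hj1 : (j : ℝ) + 1 < N := by
      have : j + 1 < N := by omega
      exact_mod_cast this
    have hi0 : (0 : ℝ) ≤ i := Nat.cast_nonneg i
    have e1 : (N : ℝ) - 1 - j - (N - 1 - i) * (N - 1 - j) / N = (N - 1 - j) * (i + 1) / N := by
      field_simp
      ring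
    rw [e1]
    have h1 : 0 < (N : ℝ) - 1 - j := by linarith
    positivity
  have hAsym : ∀ i j, A i j = A j i := by
    intro i j
    simp only [hA]
    congr 1
    · exact Finset.sum_congr rfl fun k _ => mul_comm _ _
    · rw [mul_comm]
  have hApos : ∀ i j, 0 < A i j := by
    intro i j
    rcases le_total (i : ℕ) (j : ℕ) with h | h
    · exact hApos' i j h j.2
    · rw [hAsym]
      exact hApos' j i h i.2
  -- the primitive
  set ph : (Fin n → ℝ) → ℕ → ℝ := fun x k => ∑ i : Fin n, x i * us i k with hph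
  have hdiff : ∀ (x : Fin n → ℝ) (k : ℕ) (hk : k < n), ph x (k + 1) - ph x k = x ⟨k, hk⟩ := by
    intro x k hk
    simp only [hph]
    rw [← Finset.sum_sub_distrib, Finset.sum_eq_single ⟨k, hk⟩]
    · simp [us]
    · intro b _ hb
      have hb' : (b : ℕ) ≠ k := fun h => hb (Fin.ext h)
      unfold us
      by_cases h : (b : ℕ) < k
      · rw [if_pos h, if_pos (by omega)]
        ring
      · rw [if_neg h, if_neg (by omega)]
        ring
    · intro h
      exact absurd (Finset.mem_univ _) h
  have hform : ∀ x : Fin n → ℝ, ∑ i, ∑ j, A i j * x i * x j =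
      (∑ k ∈ range N, ph x k ^ 2) - (∑ k ∈ range N, ph x k) ^ 2 / N := by
    intro x
    have e1 : ∑ k ∈ range N, ph x k ^ 2 =
        ∑ i : Fin n, ∑ j : Fin n, (∑ k ∈ range N, us i k * us j k) * x i * x j := by
      have e2 : ∀ k, ph x k ^ 2 = ∑ i : Fin n, ∑ j : Fin n, us i k * us j k * x i * x j := by
        intro k
        simp only [hph]
        rw [sq, Finset.sum_mul_sum]
        refine Finset.sum_congr rfl fun i _ => Finset.sum_congr rfl fun j _ => ?_
        ring
      simp only [e2]
      rw [Finset.sum_comm]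
      refine Finset.sum_congr rfl fun i _ => ?_
      rw [Finset.sum_comm]
      refine Finset.sum_congr rfl fun j _ => ?_
      rw [Finset.sum_mul, Finset.sum_mul]
    have e3 : ∑ k ∈ range N, ph x k = ∑ i : Fin n, x i * ∑ k ∈ range N, us i k := by
      simp only [hph]
      rw [Finset.sum_comm]
      exact Finset.sum_congr rfl fun i _ => by rw [Finset.mul_sum]
    have e4 : (∑ k ∈ range N, ph x k) ^ 2 / N = ∑ i : Fin n, ∑ j : Fin n,
        ((∑ k ∈ range N, us i k) * (∑ k ∈ range N, us j k) / N) * x i * x j := by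
      rw [e3, sq, Finset.sum_mul_sum, Finset.sum_div]
      refine Finset.sum_congr rfl fun i _ => ?_
      rw [Finset.sum_div]
      refine Finset.sum_congr rfl fun j _ => ?_
      ring
    rw [e1, e4, ← Finset.sum_sub_distrib]
    refine Finset.sum_congr rfl fun i _ => ?_
    rw [← Finset.sum_sub_distrib]
    refine Finset.sum_congr rfl fun j _ => ?_
    simp only [hA]
    ring
  have hKx : ∀ x : Fin n → ℝ, ∑ i, ∑ j, A i j * x i * x j ≤ K * ∑ i : Fin n, c i * x i ^ 2 := by
    intro x
    rw [hform x]
    have h1 := hP (ph x)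
    have h2 : ∑ k ∈ range (N - 1), c k * (ph x (k + 1) - ph x k) ^ 2 =
        ∑ i : Fin n, c i * x i ^ 2 := by
      rw [Finset.sum_range]
      refine Finset.sum_congr rfl fun i _ => ?_
      rw [hdiff x i i.2]
    rw [h2] at h1
    have h3 : (N : ℝ) * ((∑ k ∈ range N, ph x k ^ 2) - (∑ k ∈ range N, ph x k) ^ 2 / N) ≤
        N * (K * ∑ i : Fin n, c i * x i ^ 2) := by
      have e : (N : ℝ) * ((∑ k ∈ range N, ph x k ^ 2) - (∑ k ∈ range N, ph x k) ^ 2 / N) =
          N * (∑ k ∈ range N, ph x k ^ 2) - (∑ k ∈ range N, ph x k) ^ 2 := by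
        field_simp
      rw [e]
      exact h1
    exact le_of_mul_le_mul_left h3 hN0
  obtain ⟨lam, d, hlam, hlamK, hd, hEL⟩ := perron hn0 A hAsym hApos (fun i => c i)
    (fun i => hc i (by have := i.2; omega)) K hKx
  set W := ph d with hW
  set m : ℝ := (∑ k ∈ range N, W k) / N with hm
  have htot : ∑ k ∈ range N, (m - W k) = 0 := by
    rw [Finset.sum_sub_distrib, Finset.sum_const, Finset.card_range, nsmul_eq_mul, hm]
    field_simp
    ring
  -- the fluxes
  have hflux : ∀ i : Fin n, lam * c i * d i = ∑ k ∈ range ((i : ℕ) + 1), (m - W k) := by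
    intro i
    rw [← hEL i]
    have e1 : ∑ j, A i j * d j = ∑ k ∈ range N, us i k * (W k - m) := by
      have e2 : ∑ j, A i j * d j = (∑ j : Fin n, (∑ k ∈ range N, us i k * us j k) * d j) -
          (∑ k ∈ range N, us i k) * (∑ j : Fin n, d j * ∑ k ∈ range N, us j k) / N := by
        rw [Finset.mul_sum, Finset.sum_div, ← Finset.sum_sub_distrib]
        refine Finset.sum_congr rfl fun j _ => ?_
        simp only [hA]
        ring
      have e3 : ∑ j : Fin n, (∑ k ∈ range N, us i k * us j k) * d j = ∑ k ∈ range N, us i k * W k := by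
        simp only [hW, hph, Finset.sum_mul, Finset.mul_sum]
        rw [Finset.sum_comm]
        refine Finset.sum_congr rfl fun k _ => Finset.sum_congr rfl fun j _ => ?_
        ring
      have e4 : (∑ j : Fin n, d j * ∑ k ∈ range N, us j k) = ∑ k ∈ range N, W k := by
        simp only [hW, hph, Finset.mul_sum]
        rw [Finset.sum_comm]
      rw [e2, e3, e4]
      simp only [mul_sub]
      rw [Finset.sum_sub_distrib, ← Finset.sum_mul, hm]
      ring
    rw [e1]
    have e5 : ∀ k, us i k * (W k - m) = (if k < (i : ℕ) + 1 then (m - W k) else 0) - (m - W k) := by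
      intro k
      unfold us
      by_cases h : (i : ℕ) < k
      · rw [if_pos h, if_neg (by omega)]
        ring
      · rw [if_neg h, if_pos (by omega)]
        ring
    simp only [e5]
    rw [Finset.sum_sub_distrib, htot, sub_zero, ← Finset.sum_filter]
    congr 1
    ext k
    simp only [Finset.mem_filter, Finset.mem_range]
    have := i.2
    omega
  refine ⟨W, fun k => lam * c k, m, ⟨fun k hk => ?_, fun k hk => ?_, fun j hj => ?_⟩, fun k hk => ?_⟩
  · have h1 := hdiff d k (by omega)
    have h2 := hd ⟨k, by omega⟩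
    simp only [hW]
    linarith
  · exact mul_nonneg hlam.le (hc k hk).le
  · have h1 : (if j + 1 < N then lam * c j * (W (j + 1) - W j) else 0) =
        ∑ k ∈ range (j + 1), (m - W k) := by
      by_cases h : j + 1 < N
      · rw [if_pos h, ← hflux ⟨j, by omega⟩]
        rw [show W (j + 1) - W j = d ⟨j, by omega⟩ from hdiff d j (by omega)]
      · rw [if_neg h, show j + 1 = N by omega, htot]
    have h2 : (if 0 < j then lam * c (j - 1) * (W j - W (j - 1)) else 0) =
        ∑ k ∈ range j, (m - W k) := by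
      by_cases h : 0 < j
      · obtain ⟨i, rfl⟩ : ∃ i, j = i + 1 := ⟨j - 1, by omega⟩
        rw [if_pos h, Nat.add_sub_cancel, ← hflux ⟨i, by omega⟩]
        rw [show W (i + 1) - W i = d ⟨i, by omega⟩ from hdiff d i (by omega)]
      · rw [if_neg h, show j = 0 by omega]
        simp
    rw [h1, h2, Finset.sum_range_succ]
    ring
  · exact mul_le_mul_of_nonneg_right hlamK (hc k hk).le

end Pool.Agent.J4H8.OC
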